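import Pool.Agent.R825.HigherDim

/-!
# `𝔟(∈*_K) ≤ 𝔟(≠*_N)` in ZFC
-/

namespace Pool.Agent.Results.MP_1e8244_lc.BInStarLeBNeStar

open Set MeasureTheory Filter Topology Pool.Agent.R825.HigherDim

/-- The probability measure on `ℕ` which gives the mass `2 ^ (-(k + 1))` to the point `k`. -/
noncomputable def geo : PMF ℕ :=
  ⟨fun k => (2 : ENNReal)⁻¹ ^ (k + 1), by
    have h : ∑' k : ℕ, (2 : ENNReal)⁻¹ ^ (k + 1) = 1 := by
      rw [ENNReal.tsum_geometric_add_one, ENNReal.one_sub_inv_two, inv_inv,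
        ENNReal.inv_mul_cancel (by simp) (by simp)]
    exact h ▸ ENNReal.summable.hasSum⟩

/-- Lebesgue measure on the Baire space: the product of the measures `geo`. -/
noncomputable def leb : Measure (ℕ → ℕ) := Measure.infinitePi fun _ : ℕ => geo.toMeasure

instance : IsProbabilityMeasure geo.toMeasure := PMF.toMeasure.isProbabilityMeasure _

instance : IsProbabilityMeasure leb := by unfold leb; infer_instance

lemma leb_singleton (x : ℕ → ℕ) : leb {x} = 0 := by
  have h1 : ∀ N : ℕ, leb {x} ≤ (2 : ENNReal)⁻¹ ^ N := by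
    intro N
    have h2 : ({x} : Set (ℕ → ℕ)) ⊆ Set.pi (Finset.range N : Set ℕ) fun n => {x n} := by
      rintro _ rfl n _
      rfl
    refine (measure_mono h2).trans ?_
    rw [leb, Measure.infinitePi_pi (fun _ : ℕ => geo.toMeasure)
      fun n _ => measurableSet_singleton (x n)]
    have h3 : ∀ n ∈ Finset.range N, geo.toMeasure {x n} ≤ (2 : ENNReal)⁻¹ := by
      intro n _
      rw [PMF.toMeasure_apply_singleton _ _ (measurableSet_singleton _)]
      show (2 : ENNReal)⁻¹ ^ (x n + 1) ≤ (2 : ENNReal)⁻¹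
      calc (2 : ENNReal)⁻¹ ^ (x n + 1) ≤ (2 : ENNReal)⁻¹ ^ 1 :=
            pow_le_pow_right_of_le_one' (by simp) (by omega)
        _ = (2 : ENNReal)⁻¹ := pow_one _
    refine (Finset.prod_le_prod' h3).trans ?_
    rw [Finset.prod_const, Finset.card_range]
  have h4 : Tendsto (fun N : ℕ => (2 : ENNReal)⁻¹ ^ N) atTop (𝓝 0) :=
    ENNReal.tendsto_pow_atTop_nhds_zero_of_lt_one (by simp)
  exact le_antisymm (ge_of_tendsto' h4 h1) zero_le

/-- **Negative answer to Q1.** In ZFC, `𝔟(∈*_K) ≤ 𝔟(≠*_N)`, where `K` is the ideal of subsets of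
`σ`-compact sets and `N` is the null ideal of the Lebesgue measure on the Baire space; the same holds
for the null ideal of each finite nonzero Borel measure without point masses. -/
theorem result :
    bounding InStar idealK ≤ bounding NeStar (idealN leb) ∧
    ∀ μ : Measure (ℕ → ℕ), IsFiniteMeasure μ → (∀ x, μ {x} = 0) → μ Set.univ ≠ 0 →
      bounding InStar idealK ≤ bounding NeStar (idealN μ) :=
  ⟨bounding_le leb leb_singleton (by simp), fun μ _ hμ hμ0 => bounding_le μ hμ hμ0⟩

end Pool.Agent.Results.MP_1e8244_lc.BInStarLeBNeStar
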